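import Pool.Agent.Y254.HK.StmG
import Pool.Agent.Y925.HK.Ld

/-!
# Localization to caps of directions, general coefficient (edit of Y925/HK/Ld.lean of helper925)
-/

set_option autoImplicit false

open Finset
open scoped Classical

namespace Pool.Agent.Y812.HKG.Ld
open Pool.Agent.W904.AK Pool.Agent.W46.HD Pool.Agent.W46.HM Pool.Agent.Y244.HM
  Pool.Agent.W597.HD Pool.Agent.Y254HK Pool.Agent.Y925.HK.Ld

section

variable {Ω : Type} {d n : ℕ}

/-- the inequality for one label -/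
theorem one [Fintype Ω] {b G M : ℝ} {k : ℕ} {A D : Ω → Fin d → ℝ} (hkn : 2 ^ k ≤ n)
    (hO : ∀ (Ω : Type) [Fintype Ω] (A D : Ω → Fin d → ℝ), IsFam ((n + 2 ^ k - 1) / 2 ^ k) D →
      OrM ((n + 2 ^ k - 1) / 2 ^ k) A D b G M) (hF : IsFam n D) {q : Ω × Fin n → ℝ} (hq : IsLaw q)
    (y : ((Fin d → ℤ) × (Fin d → Bool)) × ℕ) (hy : ∀ z, q z ≠ 0 → lb k D z = y) :
    H q Prod.fst ≤ b * (H q (ce A D) - H q Prod.snd) +
      G * (Real.log (((n + 2 ^ k - 1) / 2 ^ k : ℕ) : ℝ) - (H q id - H q Prod.fst)) +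
      (H q Prod.snd - (H q id - H q Prod.fst)) + M := by
  set B : ℕ := 2 ^ k with hB
  have hB1 : 1 ≤ B := Nat.one_le_two_pow
  set n' : ℕ := (n + B - 1) / B with hn'
  have hnB : n ≤ n' * B := by
    rw [hn']
    have h1 := Nat.div_add_mod (n + B - 1) B
    have h2 := Nat.mod_lt (n + B - 1) hB1
    rw [mul_comm] at h1
    omega
  have hn1 : 1 ≤ n' := by
    rcases Nat.eq_zero_or_pos n' with h | h
    · rw [h] at hnB
      omega
    · exact h
  have hj' : ∀ j : Fin n, (j : ℕ) / B < n' := fun j => by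
    rw [Nat.div_lt_iff_lt_mul hB1]
    exact lt_of_lt_of_le j.2 hnB
  obtain ⟨z0, hz0⟩ : ∃ z0, q z0 ≠ 0 := by
    by_contra h
    push Not at h
    have := hq.total
    simp [h] at this
  have hz0y := hy z0 hz0
  have hw0 : (kp k D z0.1, ep n D z0.1) = y.1 := congrArg Prod.fst hz0y
  set Ω' : Type := {w : Ω // (kp k D w, ep n D w) = y.1} with hΩ'
  let D' : Ω' → Fin d → ℝ := fun w i => (2 : ℝ) ^ k * D w.1 i - y.1.1 i
  let A' : Ω' → Fin d → ℝ := fun w i => A w.1 i + (y.2 : ℝ) * D w.1 i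
  have hfl : ∀ (w : Ω') (i : Fin d), ⌊(2 : ℝ) ^ k * D w.1 i⌋ = y.1.1 i := fun w i =>
    congrFun (congrArg Prod.fst w.2) i
  have hpar : ∀ (w : Ω') (i : Fin d), decide (⌊(n : ℝ) * D w.1 i⌋ % 2 = 0) = y.1.2 i := fun w i =>
    congrFun (congrArg Prod.snd w.2) i
  have hF' : IsFam n' D' := by
    refine ⟨hn1, fun w i => ?_, fun w i => ?_, fun w w' h => ?_⟩
    · have := Int.floor_le ((2 : ℝ) ^ k * D w.1 i)
      rw [hfl] at this
      show 0 ≤ (2 : ℝ) ^ k * D w.1 i - y.1.1 i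
      linarith
    · have := Int.lt_floor_add_one ((2 : ℝ) ^ k * D w.1 i)
      rw [hfl] at this
      show (2 : ℝ) ^ k * D w.1 i - y.1.1 i ≤ 1
      linarith
    · apply Subtype.ext
      apply hF.inj
      intro i
      have h1 := h i
      have hBR : ((B : ℕ) : ℝ) = (2 : ℝ) ^ k := by rw [hB]; push_cast; rfl
      refine floor_fam hB1 hnB (c := y.1.1 i) ?_ ?_
      · rw [hBR]
        exact h1
      · have h2 := (hpar w i).trans (hpar w' i).symm
        exact decide_eq_decide.1 h2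
  let m : Ω × Fin n → Ω' × Fin n' := fun z =>
    (if h : (kp k D z.1, ep n D z.1) = y.1 then ⟨z.1, h⟩ else ⟨z0.1, hw0⟩, ⟨z.2 / B, hj' z.2⟩)
  have hm1 : ∀ z, q z ≠ 0 → ((m z).1 : Ω) = z.1 := by
    intro z hz
    have h1 : (kp k D z.1, ep n D z.1) = y.1 := congrArg Prod.fst (hy z hz)
    show ((if h : (kp k D z.1, ep n D z.1) = y.1 then (⟨z.1, h⟩ : Ω') else ⟨z0.1, hw0⟩ : Ω') : Ω) = _
    rw [dif_pos h1]
  have hm2 : ∀ z, q z ≠ 0 → ((z.2 : ℕ)) = ((m z).2 : ℕ) * B + y.2 := by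
    intro z hz
    have h1 : (z.2 : ℕ) % B = y.2 := congrArg Prod.snd (hy z hz)
    show (z.2 : ℕ) = (z.2 : ℕ) / B * B + y.2
    rw [← h1]
    exact (Nat.div_add_mod' _ _).symm
  have hcell : ∀ z, q z ≠ 0 → ∀ i, cell A' D' (m z).2 (m z).1 i =
      cell A D z.2 z.1 i - ((m z).2 : ℕ) * y.1.1 i := by
    intro z hz i
    show ⌊A (m z).1 i + (y.2 : ℝ) * D (m z).1 i + (((m z).2 : ℕ) : ℝ) *
      ((2 : ℝ) ^ k * D (m z).1 i - y.1.1 i)⌋ = ⌊A z.1 i + ((z.2 : ℕ) : ℝ) * D z.1 i⌋ - _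
    rw [hm1 z hz, ← Int.floor_sub_intCast]
    congr 1
    have h2 : ((z.2 : ℕ) : ℝ) = (((m z).2 : ℕ) : ℝ) * (2 : ℝ) ^ k + (y.2 : ℝ) := by
      rw [hm2 z hz, hB]
      push_cast
      rfl
    rw [h2]
    push_cast
    ring
  have h0 := hO Ω' A' D' hF' (im q m) (hq.im m)
  unfold aa hh lam mi at h0
  simp only [H_im] at h0
  have e1 : H q (fun z => (m z).1) = H q Prod.fst := by
    refine H_congr hq ?_ ?_
    · intro x z hx hz h
      rw [← hm1 x hx, ← hm1 z hz]
      exact congrArg Subtype.val h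
    · intro x z hx hz h
      apply Subtype.ext
      rw [hm1 x hx, hm1 z hz]
      exact h
  have hs : ∀ x z, q x ≠ 0 → q z ≠ 0 → (m x).2 = (m z).2 → x.2 = z.2 := by
    intro x z hx hz h
    apply Fin.ext
    rw [hm2 x hx, hm2 z hz, h]
  have hs' : ∀ x z : Ω × Fin n, x.2 = z.2 → (m x).2 = (m z).2 := by
    intro x z h
    apply Fin.ext
    show (x.2 : ℕ) / B = (z.2 : ℕ) / B
    rw [h]
  have e2 : H q (fun z => (m z).2) = H q Prod.snd := by
    refine H_congr hq ?_ ?_
    · intro x z hx hz h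
      exact hs x z hx hz h
    · intro x z hx hz h
      exact hs' x z h
  have e3 : H q (fun z => id (m z)) = H q id := by
    refine H_congr hq ?_ ?_
    · intro x z hx hz h
      have h' : m x = m z := h
      refine Prod.ext ?_ (hs x z hx hz (congrArg Prod.snd h'))
      show x.1 = z.1
      rw [← hm1 x hx, ← hm1 z hz, h']
    · intro x z hx hz h
      have h' : x = z := h
      show m x = m z
      rw [h']
  have e4 : H q (fun z => ((m z).2, cell A' D' (m z).2 (m z).1)) = H q (ce A D) := by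
    refine H_congr hq ?_ ?_
    · intro x z hx hz h
      have h1 : (m x).2 = (m z).2 := congrArg Prod.fst h
      have h2 : cell A' D' (m x).2 (m x).1 = cell A' D' (m z).2 (m z).1 := congrArg Prod.snd h
      refine Prod.ext (hs x z hx hz h1) ?_
      funext i
      have h3 := congrFun h2 i
      rw [hcell x hx, hcell z hz, h1] at h3
      show cell A D x.2 x.1 i = cell A D z.2 z.1 i
      linarith
    · intro x z hx hz h
      have h1 : x.2 = z.2 := congrArg Prod.fst h
      have h2 : cell A D x.2 x.1 = cell A D z.2 z.1 := congrArg Prod.snd h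
      refine Prod.ext (hs' x z h1) ?_
      funext i
      have h3 := congrFun h2 i
      show cell A' D' (m x).2 (m x).1 i = cell A' D' (m z).2 (m z).1 i
      rw [hcell x hx, hcell z hz, hs' x z h1, h3]
  rw [e1, e2, e3, e4] at h0
  exact h0

end

theorem t_ldg : S_LDG := by
  intro d b G hb hG
  have hd0 : (0 : ℝ) ≤ d := Nat.cast_nonneg d
  have hG0 : (0 : ℝ) ≤ G := hd0.trans hG
  refine ⟨b * d + G, by positivity, ?_⟩
  rintro M k n hkn hO Ω _ A D hF p hp ⟨κ, hκ⟩
  have hn : 1 ≤ n := hF.pos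
  have hone : ∀ x, p x ≠ 0 → _ := fun x hx =>
    Pool.Agent.Y812.HKG.Ld.one (A := A) hkn hO hF (cd_law hp (lb k D) (im_pos hp (lb k D) hx).ne') (lb k D x)
      (fun z hz => by
        by_contra h
        exact hz (by unfold cd; rw [if_neg h]))
  have hsum := avg hp b G (Real.log (((n + 2 ^ k - 1) / 2 ^ k : ℕ) : ℝ)) M
    (fun x => H (cd p (lb k D) (lb k D x)) (ce A D))
    (fun x => H (cd p (lb k D) (lb k D x)) Prod.snd)
    (fun x => H (cd p (lb k D) (lb k D x)) id)
    (fun x => H (cd p (lb k D) (lb k D x)) Prod.fst) hone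
  simp only [← chain hp] at hsum
  -- entropies
  have c1 : H p (fun x => (lb k D x, id x)) = H p id :=
    H_congr hp (fun x y _ _ h => congrArg Prod.snd h)
      (fun x y _ _ h => by
        have h' : x = y := h
        rw [h'])
  have c2 : H p (fun x => (lb k D x, ce A D x)) ≤ H p (ce A D) + d * Real.log 2 := by
    have h1 : H p (fun x => (lb k D x, ce A D x)) ≤ H p (ce A D) + H p (fun x => ep n D x.1) := by
      refine subadd hp ?_
      intro x y hx hy h
      have h1 : ce A D x = ce A D y := congrArg Prod.fst h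
      have h2 : ep n D x.1 = ep n D y.1 := congrArg Prod.snd h
      have h3 : x.2 = y.2 := congrArg Prod.fst h1
      have h4 : kp k D x.1 = kp k D y.1 := by
        have a1 := hκ x hx
        have a2 := hκ y hy
        rw [h1] at a1
        exact a1.trans a2.symm
      show (((kp k D x.1, ep n D x.1), (x.2 : ℕ) % 2 ^ k), ce A D x) =
        (((kp k D y.1, ep n D y.1), (y.2 : ℕ) % 2 ^ k), ce A D y)
      rw [h1, h2, h3, h4]
    have h2 := H_le_log_card hp (fun x => ep n D x.1) Finset.univ (fun x _ => Finset.mem_univ _)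
    rw [Finset.card_univ, Fintype.card_fun, Fintype.card_bool, Fintype.card_fin] at h2
    push_cast at h2
    rw [Real.log_pow] at h2
    linarith
  have c3 : H p Prod.snd ≤ H p (fun x => (lb k D x, x.2)) :=
    H_mono hp (fun x y _ _ h => (Prod.ext_iff.1 h).2)
  have c4 : H p (fun x => (lb k D x, x.1)) ≤ H p Prod.fst + Real.log ((2 ^ k : ℕ) : ℝ) := by
    have h1 : H p (fun x => (lb k D x, x.1)) ≤
        H p Prod.fst + H p (fun x : Ω × Fin n => (x.2 : ℕ) % 2 ^ k) := by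
      refine subadd hp ?_
      intro x y hx hy h
      have h1 : x.1 = y.1 := (Prod.ext_iff.1 h).1
      have h2 : (x.2 : ℕ) % 2 ^ k = (y.2 : ℕ) % 2 ^ k := (Prod.ext_iff.1 h).2
      show (((kp k D x.1, ep n D x.1), (x.2 : ℕ) % 2 ^ k), x.1) =
        (((kp k D y.1, ep n D y.1), (y.2 : ℕ) % 2 ^ k), y.1)
      rw [h1, h2]
    have h2 := H_le_log_card hp (fun x : Ω × Fin n => (x.2 : ℕ) % 2 ^ k) (Finset.range (2 ^ k))
      (fun x _ => Finset.mem_range.2 (Nat.mod_lt _ (by positivity)))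
    rw [Finset.card_range] at h2
    linarith
  have c5 : Real.log (((n + 2 ^ k - 1) / 2 ^ k : ℕ) : ℝ) + Real.log ((2 ^ k : ℕ) : ℝ) ≤
      Real.log n + Real.log 2 := by
    have h1 : (n + 2 ^ k - 1) / 2 ^ k * 2 ^ k ≤ n * 2 := by
      have := Nat.div_mul_le_self (n + 2 ^ k - 1) (2 ^ k)
      omega
    have h2 : 0 < (n + 2 ^ k - 1) / 2 ^ k :=
      Nat.div_pos (by omega) (by positivity)
    have h3 : (0 : ℝ) < (((n + 2 ^ k - 1) / 2 ^ k : ℕ) : ℝ) := by exact_mod_cast h2
    have h4 : (0 : ℝ) < ((2 ^ k : ℕ) : ℝ) := by positivity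
    have h5 : (0 : ℝ) < n := by exact_mod_cast hn
    rw [← Real.log_mul h3.ne' h4.ne', ← Real.log_mul h5.ne' (by norm_num)]
    apply Real.log_le_log (by positivity)
    exact_mod_cast h1
  have hl2 : Real.log 2 ≤ 1 := by
    have := Real.log_two_lt_d9
    linarith
  unfold aa hh lam mi
  have e5 : (fun z : Ω × Fin n => (z.2, cell A D z.2 z.1)) = ce A D := rfl
  rw [e5]
  rw [c1] at hsum
  set h0 := H p (Prod.snd : Ω × Fin n → Fin n)
  set h1 := H p (ce A D)
  set hw := H p (Prod.fst : Ω × Fin n → Ω)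
  set hi := H p (id : Ω × Fin n → Ω × Fin n)
  set hY := H p (lb (n := n) k D)
  set hwr := H p (fun x => (lb k D x, x.1))
  set hjY := H p (fun x => (lb k D x, x.2))
  set hYc := H p (fun x => (lb k D x, ce A D x))
  set L' := Real.log (((n + 2 ^ k - 1) / 2 ^ k : ℕ) : ℝ)
  have f1 : b * hYc ≤ b * (h1 + d * Real.log 2) := mul_le_mul_of_nonneg_left c2 (by linarith)
  have f2 : (b - 1) * h0 ≤ (b - 1) * hjY := mul_le_mul_of_nonneg_left c3 (by linarith)
  have f3 : G * (L' + hwr) ≤ G * (Real.log n + Real.log 2 + hw) :=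
    mul_le_mul_of_nonneg_left (by linarith) hG0
  have f4 : (b * d + G) * Real.log 2 ≤ (b * d + G) * 1 :=
    mul_le_mul_of_nonneg_left hl2 (by positivity)
  nlinarith [f1, f2, f3, f4, hsum]

end Pool.Agent.Y812.HKG.Ld
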