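import Pool.Agent.Y254.HK.StmG
import Pool.Agent.Y941.HK.LH

/-!
# Localization to intervals of heights, general coefficient (edit of Y941/HK/LH.lean of helper941)
-/

set_option autoImplicit false

open Finset
open scoped Classical

namespace Pool.Agent.Y812.HKG.LH
open Pool.Agent.Y941.HK
open Pool.Agent.W904.AK Pool.Agent.W46.HD Pool.Agent.W46.HM Pool.Agent.Y244.HM
  Pool.Agent.W305.HM


/-- One label and one colour. -/
theorem one_label {d k : ℕ} {b G M : ℝ}
    (O : ∀ (Ω : Type) [Fintype Ω] (A D : Ω → Fin d → ℝ), IsFam (2 ^ k) D →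
      OrM (2 ^ k) A D b G M)
    {n : ℕ} {Ω : Type} [Fintype Ω] (A D : Ω → Fin d → ℝ) (hF : IsFam n D) (a : ℕ)
    (ρ : Fin d → ℤ) (q : Ω × Fin n → ℝ) (hq : IsLaw q)
    (hsup : ∀ z, q z ≠ 0 → (z.2 : ℕ) / 2 ^ k = a ∧ col n D k z.1 = ρ) :
    H q Prod.fst ≤ b * (H q (fun z => (z.2, cell A D z.2 z.1)) - H q Prod.snd) +
      G * (Real.log ((2 : ℝ) ^ k) - (H q id - H q Prod.fst)) +
      (H q Prod.snd - (H q id - H q Prod.fst)) + M := by
  have hLpos : 0 < 2 ^ k := by positivity
  obtain ⟨z0, hz0⟩ : ∃ z, q z ≠ 0 := by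
    by_contra h
    push Not at h
    have := hq.total
    simp [h] at this
  let φ : Ω × Fin n → {ω : Ω // col n D k ω = ρ} × Fin (2 ^ k) := fun z =>
    (if h : col n D k z.1 = ρ then ⟨z.1, h⟩ else ⟨z0.1, (hsup z0 hz0).2⟩,
      ⟨z.2 % 2 ^ k, Nat.mod_lt _ hLpos⟩)
  have hφ : ∀ z, q z ≠ 0 → ((φ z).1 : Ω) = z.1 ∧ (z.2 : ℕ) = a * 2 ^ k + (φ z).2 := by
    intro z hz
    obtain ⟨h1, h2⟩ := hsup z hz
    constructor
    · simp only [φ]
      rw [dif_pos h2]
    · simp only [φ]
      rw [← h1]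
      exact (Nat.div_add_mod' _ _).symm
  have hfam : IsFam (2 ^ k) (fun w : {ω : Ω // col n D k ω = ρ} => D w.1) := by
    refine ⟨hLpos, fun w i => hF.lo w.1 i, fun w i => hF.hi w.1 i, fun w w' h => ?_⟩
    apply Subtype.ext
    apply hF.inj
    intro i
    apply floor_close n (2 ^ k) hLpos _ _ (h i)
    have h1 := congrFun (w.2.trans w'.2.symm) i
    exact h1
  have hO := O {ω : Ω // col n D k ω = ρ}
    (fun w i => A w.1 i + ((a * 2 ^ k : ℕ) : ℝ) * D w.1 i) (fun w => D w.1) hfam
  have := transferM (A := A) (D := D) hq Subtype.val_injective hφ b G M hO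
  rw [Nat.cast_pow, Nat.cast_ofNat] at this
  exact this

/-- All labels. -/
theorem all_labels {d k : ℕ} {b G M : ℝ}
    (O : ∀ (Ω : Type) [Fintype Ω] (A D : Ω → Fin d → ℝ), IsFam (2 ^ k) D →
      OrM (2 ^ k) A D b G M)
    {n : ℕ} {Ω : Type} [Fintype Ω] (A D : Ω → Fin d → ℝ) (hF : IsFam n D)
    (p : Ω × Fin n → ℝ) (hp : IsLaw p) :
    H p (fun z => (QL D k z, z.1)) - H p (QL D k) ≤
      b * (H p (fun z => (QL D k z, z.2, cell A D z.2 z.1)) - H p (fun z => (QL D k z, z.2))) +
      G * (Real.log ((2 : ℝ) ^ k) -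
        (H p (fun z => (QL D k z, z.1, z.2)) - H p (fun z => (QL D k z, z.1)))) +
      ((H p (fun z => (QL D k z, z.2)) - H p (QL D k)) -
        (H p (fun z => (QL D k z, z.1, z.2)) - H p (fun z => (QL D k z, z.1)))) + M := by
  have e0 := chain hp (QL (n := n) D k) (fun z => z.1)
  have e1 := chain hp (QL D k) (fun z => (z.2, cell A D z.2 z.1))
  have e2 := chain hp (QL (n := n) D k) (fun z => z.2)
  have e3 := chain hp (QL (n := n) D k) (fun z => (z.1, z.2))
  have key : ∀ x, p x * H (cd p (QL D k) (QL D k x)) (fun z => z.1) ≤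
      b * (p x * H (cd p (QL D k) (QL D k x)) (fun z => (z.2, cell A D z.2 z.1)) -
        p x * H (cd p (QL D k) (QL D k x)) (fun z => z.2)) +
      (G * (p x * Real.log ((2 : ℝ) ^ k) -
        (p x * H (cd p (QL D k) (QL D k x)) (fun z => (z.1, z.2)) -
        p x * H (cd p (QL D k) (QL D k x)) (fun z => z.1))) +
      (p x * H (cd p (QL D k) (QL D k x)) (fun z => z.2) -
        (p x * H (cd p (QL D k) (QL D k x)) (fun z => (z.1, z.2)) -
        p x * H (cd p (QL D k) (QL D k x)) (fun z => z.1)) + p x * M)) := by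
    intro x
    by_cases hx : p x = 0
    · simp [hx]
    · have hP : 0 < im p (QL D k) (QL D k x) := im_pos hp (QL D k) hx
      have hlaw : IsLaw (cd p (QL D k) (QL D k x)) := cd_law hp (QL D k) hP.ne'
      have hcd : ∀ z, cd p (QL D k) (QL D k x) z ≠ 0 → QL D k z = QL D k x := by
        intro z hz
        by_contra hne
        exact hz (if_neg hne)
      have hq1 : ∀ z, cd p (QL D k) (QL D k x) z ≠ 0 →
          (z.2 : ℕ) / 2 ^ k = (x.2 : ℕ) / 2 ^ k ∧ col n D k z.1 = col n D k x.1 := by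
        intro z hz
        have h := hcd z hz
        exact ⟨congrArg Prod.fst h, congrArg Prod.snd h⟩
      have h2 := one_label O A D hF ((x.2 : ℕ) / 2 ^ k) (col n D k x.1)
        (cd p (QL D k) (QL D k x)) hlaw hq1
      have h3 := mul_le_mul_of_nonneg_left h2 (hp.nonneg x)
      have e6 : H (cd p (QL D k) (QL D k x)) (fun z => (z.1, z.2)) =
          H (cd p (QL D k) (QL D k x)) id := rfl
      have e7 : H (cd p (QL D k) (QL D k x)) (fun z => z.1) =
          H (cd p (QL D k) (QL D k x)) Prod.fst := rfl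
      have e8 : H (cd p (QL D k) (QL D k x)) (fun z => z.2) =
          H (cd p (QL D k) (QL D k x)) Prod.snd := rfl
      rw [e6, e7, e8]
      refine h3.trans (le_of_eq ?_)
      ring
  have hsum := Finset.sum_le_sum fun x (_ : x ∈ (Finset.univ : Finset (Ω × Fin n))) => key x
  rw [Finset.sum_add_distrib, Finset.sum_add_distrib, Finset.sum_add_distrib,
    ← Finset.mul_sum, ← Finset.mul_sum,
    Finset.sum_sub_distrib, Finset.sum_sub_distrib, Finset.sum_sub_distrib,
    Finset.sum_sub_distrib, Finset.sum_sub_distrib, ← Finset.sum_mul,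
    ← Finset.sum_mul, hp.total, ← e0, ← e1, ← e2, ← e3] at hsum
  refine hsum.trans (le_of_eq ?_)
  ring

theorem t_lhg : Pool.Agent.Y254HK.S_LHG := by
  intro d
  refine ⟨2 * d, by positivity, ?_⟩
  intro b G M k hb hG O n Ω _ A D hF hk p hp hsup
  obtain ⟨a, ha⟩ := hsup
  have h := all_labels O A D hF p hp
  have hcol := H_col hk D p hp
  have a1 : H p (fun z => (QL D k z, z.1, z.2)) = H p id := by
    refine H_congr hp ?_ ?_
    · intro x y _ _ h
      exact congrArg Prod.snd h
    · intro x y _ _ h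
      have h' : x = y := h
      rw [h']
  have a2 : H p (fun z => (QL D k z, z.1)) = H p Prod.fst := by
    refine H_congr hp ?_ ?_
    · intro x y _ _ h
      exact congrArg Prod.snd h
    · intro x y hx hy h
      have h' : x.1 = y.1 := h
      have h1 : (x.2 : ℕ) / 2 ^ k = (y.2 : ℕ) / 2 ^ k := by rw [ha x hx, ha y hy, h']
      show ((((x.2 : ℕ) / 2 ^ k, col n D k x.1), x.1) : (ℕ × (Fin d → ℤ)) × Ω) =
        (((y.2 : ℕ) / 2 ^ k, col n D k y.1), y.1)
      rw [h1, h']
  have a3 : H p (fun z => (QL D k z, z.2, cell A D z.2 z.1)) + H p Prod.snd ≤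
      H p (fun z => (QL D k z, z.2)) + H p (fun z => (z.2, cell A D z.2 z.1)) := by
    refine submod' hp (h := Prod.snd) ?_ ?_ ?_
    · intro x y _ _ h
      exact congrArg (fun u => u.2) h
    · intro x y _ _ h
      exact congrArg (fun u => u.1) h
    · intro x y _ _ h
      have e1 : QL D k x = QL D k y := congrArg (fun u => u.1.1) h
      have e2 : x.2 = y.2 := congrArg (fun u => u.1.2) h
      have e3 : cell A D x.2 x.1 = cell A D y.2 y.1 := congrArg (fun u => u.2.2) h
      exact Prod.ext e1 (Prod.ext e2 e3)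
  have a4 : H p (fun z => (QL D k z, z.2)) ≤ H p (fun z => col n D k z.1) + H p Prod.snd := by
    refine subadd hp ?_
    intro x y _ _ h
    have e1 : col n D k x.1 = col n D k y.1 := congrArg (fun u => u.1) h
    have e2 : x.2 = y.2 := congrArg (fun u => u.2) h
    show ((((x.2 : ℕ) / 2 ^ k, col n D k x.1), x.2) : (ℕ × (Fin d → ℤ)) × Fin n) =
        (((y.2 : ℕ) / 2 ^ k, col n D k y.1), y.2)
    rw [e1, e2]
  have a5 : b * (H p (fun z => (QL D k z, z.2, cell A D z.2 z.1)) -
      H p (fun z => (QL D k z, z.2))) ≤ b * hh A D p := by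
    refine mul_le_mul_of_nonneg_left ?_ hb
    unfold hh
    linarith
  rw [a1, a2] at h
  have a6 : Real.log ((2 : ℝ) ^ k) ≤ Real.log n := by
    apply Real.log_le_log (by positivity)
    exact_mod_cast hk
  have a7 : (d : ℝ) * (Real.log n - Real.log ((2 : ℝ) ^ k)) ≤
      G * (Real.log n - Real.log ((2 : ℝ) ^ k)) :=
    mul_le_mul_of_nonneg_right hG (by linarith)
  unfold lam aa mi
  linarith

end Pool.Agent.Y812.HKG.LH
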